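import Pool.Agent.Lib.H40F.FinClass

/-!
# Strongly maximal `H`-free edge sets: classification of the graphs `H` with finitely many cycles

Let `H` be a graph in which only finitely many vertices lie on cycles; if `H` has no cycle at all
assume that its components are countable. For instance `H` may be any graph with finitely many
edges, any countable forest, or any forest with countable components. Every graph `G` has a
strongly maximal `H`-free edge set if and only if `H` has finitely many edges but at least one, and
all the edges of `H` have a common vertex, i.e. `H` is a star `K_{1,n}`, `n ≥ 1` finite, plus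
isolated vertices.
-/

namespace Pool.Agent.Results.MP_fc2b6d_co.FewCycles

open Pool.Agent.StrongMax

universe u

theorem result {W : Type u} (H : SimpleGraph W)
    (hcyc : {x : W | ∃ p : H.Walk x x, p.IsCycle}.Finite)
    (hcnt : H.IsAcyclic → ∀ C : H.ConnectedComponent, C.supp.Countable) :
    (∀ (V : Type u) (G : SimpleGraph V), ∃ F : Set (Sym2 V), StronglyMaximal H G F) ↔
      H.edgeSet.Finite ∧ H ≠ ⊥ ∧ ∃ z : W, ∀ a b : W, H.Adj a b → a = z ∨ b = z := by
  by_cases hfin : H.edgeSet.Finite
  · rw [Pool.Agent.H40F.finite_classification H hfin]
    exact ⟨fun h => ⟨hfin, h⟩, fun h => h.2⟩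
  · constructor
    · intro hprop
      obtain ⟨V, G, hG⟩ := Pool.Agent.H40F.few_cycles H hcyc hcnt hfin
      obtain ⟨F, hF⟩ := hprop V G
      exact absurd hF (hG F)
    · intro h
      exact absurd h.1 hfin

end Pool.Agent.Results.MP_fc2b6d_co.FewCycles
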