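import Pool.Agent.Lib.H40Z.N

/-!
# A class of graphs `H` for which strongly maximal `H`-free edge sets need not exist

`Bad` is the least class of graphs that contains

* the graphs with finitely many edges, at least one, whose edges have no common vertex,
* the locally finite graphs with infinitely many edges,
* the forests with countable components and infinitely many edges,
* the graphs with an edge that embed in `H - e` for every edge `e` of `H` (e.g. `K_{m,κ}` with
  `m ≥ 1` and `κ` infinite, infinite complete graphs, `κ`-regular trees),
* the infinite books (`K_{1,1,κ}`: two adjacent vertices and infinitely many other vertices, each
  of them adjacent to exactly these two)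

and contains `H` whenever it contains the graph induced on the (nonempty) `L`-core of `H`, or on the
set of vertices of degree at least `μ`, `μ ≠ 0`, or on the union of the components in which a given
component (with an edge) embeds. No graph in `Bad` has the property in Q1.
-/

namespace Pool.Agent.Results.MP_fc2b6d_co.NegativeClass

open Pool.Agent.StrongMax

universe u

theorem result {W : Type u} (H : SimpleGraph W) (h : Pool.Agent.H40Z.Bad H) :
    ∃ (V : Type u) (G : SimpleGraph V), ∀ F : Set (Sym2 V), ¬ StronglyMaximal H G F :=
  h.fails.1

end Pool.Agent.Results.MP_fc2b6d_co.NegativeClass
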