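import Pool.Agent.Lib.StrongMax.SepRay

/-!
# Graphs `H` with a ray and few vertices of infinite degree

If `H` contains a ray and the vertices of infinite degree lie in a finite independent set, then
some host graph has no strongly maximal `H`-free edge set.
-/

namespace Pool.Agent.Results.MP_fc2b6d_co.RayFewBigVertices

open Pool.Agent.StrongMax

universe u

theorem result {W : Type u} (H : SimpleGraph W) (Z : Set W) (hZ : Z.Finite)
    (hZi : ∀ x ∈ Z, ∀ y ∈ Z, ¬ H.Adj x y) (hlf : ∀ x, x ∉ Z → (H.neighborSet x).Finite)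
    (hray : ∃ r : ℕ → W, Function.Injective r ∧ ∀ n, H.Adj (r n) (r (n + 1))) :
    ∃ (V : Type u) (G : SimpleGraph V), ∀ F : Set (Sym2 V), ¬ StronglyMaximal H G F := by
  obtain ⟨r, hr, hadj⟩ := hray
  exact fails_of_ray_finite Z hZ hZi hlf (fun h => h r hr hadj (fun _ => Set.mem_univ _))

end Pool.Agent.Results.MP_fc2b6d_co.RayFewBigVertices
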