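import Pool.Agent.Lib.StrongMax.Rays

/-!
# Graphs `H` in which no stable set meets all rays

If every graph has a strongly maximal `H`-free edge set, then some independent set of vertices of
`H` meets every ray (one-way infinite path) of `H`.
-/

namespace Pool.Agent.Results.MP_fc2b6d_co.RaysAndStableSets

open Pool.Agent.StrongMax

universe u

theorem result {W : Type u} (H : SimpleGraph W)
    (hprop : ∀ (V : Type u) (G : SimpleGraph V), ∃ F : Set (Sym2 V), StronglyMaximal H G F) :
    ∃ J : Set W, (∀ x ∈ J, ∀ y ∈ J, ¬ H.Adj x y) ∧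
      ∀ r : ℕ → W, Function.Injective r → (∀ n, H.Adj (r n) (r (n + 1))) → ∃ n, r n ∈ J := by
  by_contra hcon
  push Not at hcon
  obtain ⟨V, G, hG⟩ := fails_of_rays (H := H) (fun J hJ hR => by
    obtain ⟨r, hr, hadj, hrJ⟩ := hcon J hJ
    exact hR r hr hadj hrJ)
  obtain ⟨F, hF⟩ := hprop V G
  exact hG F hF

end Pool.Agent.Results.MP_fc2b6d_co.RaysAndStableSets
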